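import Pool.Agent.H90.AL.Piv

/-!
# Joint influences of two edges on the connection event
-/

open MeasureTheory ProbabilityTheory unitInterval

namespace Pool.Agent.H90.AL

open Pool.Agent.H89.Perc Pool.Agent.H61.NC Pool.Agent.H31.AL Pool.Agent.H29.Sep

variable {N : ℕ} {d : Bool} {J : Set Config} {u v w : Edge}

/-- The event `J` implies arms of `u`, `v`, `w`, where `u` and `v` are the closest edges. -/
structure Role (N : ℕ) (J : Set Config) (u v w : Edge) : Prop where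
  near : ∀ r : ℕ, 1 ≤ r → 2 * r + 2 ≤ N → r + 1 < dT N (src u) (src v) →
    r + 1 < dT N (src u) (src w) → r + 1 < dT N (src v) (src w) →
    J ⊆ A4T N u r ∩ A4T N v r
  far : ∀ r : ℕ, 1 ≤ r → 2 * r + 2 ≤ N → r + 1 < dT N (src u) (src w) →
    r + 1 < dT N (src v) (src w) → J ⊆ A4T N w r
  ann : ∀ t R : ℕ, 1 ≤ t → t ≤ R → 2 * R < N → dT N (src u) (src v) + 1 ≤ t →
    R + 1 < dT N (src u) (src w) → J ⊆ A2T N (src u) t R

/-- Changing an edge far from `f`. -/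
lemma a4_update (hN : 1 ≤ N) {f g : Edge} {r : ℕ} {b : Bool} {ω : Config}
    (h : r < dT N (src g) (src f)) (h' : Function.update ω g b ∈ A4T N f r) : ω ∈ A4T N f r := by
  refine localOn_A4T' hN f r _ _ (fun e he => ?_) h'
  rw [Function.update_of_ne]
  rintro rfl
  rw [mem_SR] at he
  omega

lemma a2_update (hN : 1 ≤ N) {g : Edge} {c : Vert} {t R : ℕ} {b : Bool} {ω : Config} (ht : 1 ≤ t)
    (hR : t + R ≤ N) (h : dT N (src g) c < t ∨ R < dT N (src g) c)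
    (h' : Function.update ω g b ∈ A2T N c t R) : ω ∈ A2T N c t R := by
  refine localOn_A2T hN c ht hR _ _ (fun e he => ?_) h'
  rw [Function.update_of_ne]
  rintro rfl
  rw [mem_SR] at he
  omega

lemma joint_piv {f g : Edge} (hi : Incr (DT N d)) (hfg : f ≠ g) {ω : Config}
    (h : ω ∈ Joint (DT N d) f g) :
    (∃ b, Piv N d f (Function.update ω g b)) ∧ ∃ b, Piv N d g (Function.update ω f b) := by
  obtain ⟨⟨b, h1, h2⟩, ⟨b', h3, h4⟩⟩ := Joint_piv hi hfg h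
  exact ⟨⟨b, h1, h2⟩, ⟨b', h3, h4⟩⟩

/-- The two edges are close, the middle edge is far. -/
theorem role_one (hN : 1 ≤ N) {f g : Edge} (hf : f ∈ tEdges N) (hg : g ∈ tEdges N) (hfg : f ≠ g)
    (hi : Incr (DT N d)) : Role N (Joint (DT N d) f g) f g (ctr N d) where
  near r hr hrN h1 h2 h3 := by
    intro ω hω
    obtain ⟨⟨b, hb⟩, ⟨b', hb'⟩⟩ := joint_piv hi hfg hω
    refine ⟨a4_update hN (g := g) (b := b) ?_ (hb.a4_self hf hr hrN ?_),
      a4_update hN (g := f) (b := b') ?_ (hb'.a4_self hg hr hrN ?_)⟩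
    · rw [dT_comm hN]; omega
    · rw [dT_comm hN]; omega
    · omega
    · rw [dT_comm hN]; omega
  far r hr hrN h1 h2 := by
    intro ω hω
    obtain ⟨⟨b, hb⟩, -⟩ := joint_piv hi hfg hω
    exact a4_update hN (g := g) (b := b) (by omega) (hb.a4_ctr hf hr hrN (by omega))
  ann t R ht htR hR h1 h2 := by
    intro ω hω
    obtain ⟨⟨b, hb⟩, -⟩ := joint_piv hi hfg hω
    refine a2_update hN (g := g) (b := b) ht (by omega) (Or.inl ?_) (hb.a2 hf ht htR hR (Or.inl ?_))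
    · rw [dT_comm hN]; omega
    · rw [dT_self, dT_comm hN (src (ctr N d))]
      omega

/-- The edge `f` is close to the middle edge, the edge `g` is far. -/
theorem role_two (hN : 1 ≤ N) {f g : Edge} (hf : f ∈ tEdges N) (hg : g ∈ tEdges N) (hfg : f ≠ g)
    (hi : Incr (DT N d)) : Role N (Joint (DT N d) f g) (ctr N d) f g where
  near r hr hrN h1 h2 h3 := by
    intro ω hω
    obtain ⟨⟨b, hb⟩, -⟩ := joint_piv hi hfg hω
    refine ⟨a4_update hN (g := g) (b := b) ?_ (hb.a4_ctr hf hr hrN ?_),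
      a4_update hN (g := g) (b := b) ?_ (hb.a4_self hf hr hrN ?_)⟩
    · rw [dT_comm hN]; omega
    · rw [dT_comm hN]; omega
    · rw [dT_comm hN]; omega
    · omega
  far r hr hrN h1 h2 := by
    intro ω hω
    obtain ⟨-, ⟨b, hb⟩⟩ := joint_piv hi hfg hω
    exact a4_update hN (g := f) (b := b) (by omega) (hb.a4_self hg hr hrN (by omega))
  ann t R ht htR hR h1 h2 := by
    intro ω hω
    obtain ⟨-, ⟨b, hb⟩⟩ := joint_piv hi hfg hω
    refine a2_update hN (g := f) (b := b) ht (by omega) (Or.inl ?_) (hb.a2 hg ht htR hR (Or.inr ?_))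
    · rw [dT_comm hN]; omega
    · rw [dT_self, dT_comm hN (src g)]
      omega

/-- The edge `g` is close to the middle edge, the edge `f` is far. -/
theorem role_three (hN : 1 ≤ N) {f g : Edge} (hf : f ∈ tEdges N) (hg : g ∈ tEdges N) (hfg : f ≠ g)
    (hi : Incr (DT N d)) : Role N (Joint (DT N d) f g) (ctr N d) g f where
  near r hr hrN h1 h2 h3 := by
    intro ω hω
    obtain ⟨-, ⟨b, hb⟩⟩ := joint_piv hi hfg hω
    refine ⟨a4_update hN (g := f) (b := b) ?_ (hb.a4_ctr hg hr hrN ?_),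
      a4_update hN (g := f) (b := b) ?_ (hb.a4_self hg hr hrN ?_)⟩
    · rw [dT_comm hN]; omega
    · rw [dT_comm hN]; omega
    · rw [dT_comm hN]; omega
    · omega
  far r hr hrN h1 h2 := by
    intro ω hω
    obtain ⟨⟨b, hb⟩, -⟩ := joint_piv hi hfg hω
    exact a4_update hN (g := g) (b := b) (by omega) (hb.a4_self hf hr hrN (by omega))
  ann t R ht htR hR h1 h2 := by
    intro ω hω
    obtain ⟨⟨b, hb⟩, -⟩ := joint_piv hi hfg hω
    refine a2_update hN (g := g) (b := b) ht (by omega) (Or.inl ?_) (hb.a2 hf ht htR hR (Or.inr ?_))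
    · rw [dT_comm hN]; omega
    · rw [dT_self, dT_comm hN (src f)]
      omega

/-! ### Probabilities -/

lemma disj_SR (hN : 1 ≤ N) {c c' : Vert} {t R t' R' : ℕ}
    (h : R + R' < dT N c c' ∨ dT N c c' + R' < t) : Disjoint (SR N c t R) (SR N c' t' R') := by
  rw [Finset.disjoint_left]
  intro g hg hg'
  rw [mem_SR] at hg hg'
  have h1 := dT_tri hN c (src g) c'
  have h2 := dT_tri hN (src g) c' c
  rw [dT_comm hN c (src g)] at h1
  rw [dT_comm hN c' c] at h2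
  rcases h with h | h <;> omega

theorem Pr_role_A (q : I) (hu : u ∈ tEdges N) (hv : v ∈ tEdges N) (hw : w ∈ tEdges N)
    (hJ : Role N J u v w) {r t R r' : ℕ} (hN : 1 ≤ N) (h1 : 1 ≤ r) (h2 : 2 * r < dT N (src u) (src v))
    (h3 : dT N (src u) (src v) + r < t) (h4 : t ≤ R) (h5 : 1 ≤ r')
    (h6 : R + r' + 1 < dT N (src u) (src w)) (h7 : r + r' + 1 < dT N (src v) (src w)) :
    Pr q J ≤ a4 q r * a4 q r * (Pr q (A2 t R) * a4 q r') := by
  classical
  have b1 := dT_le_half hN (src u) (src w)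
  have b2 := dT_le_half hN (src u) (src v)
  have hsub : J ⊆ (A4T N u r ∩ A4T N v r) ∩ (A2T N (src u) t R ∩ A4T N w r') := by
    intro ω hω
    exact ⟨hJ.near r h1 (by omega) (by omega) (by omega) (by omega) hω,
      hJ.ann t R (by omega) h4 (by omega) (by omega) (by omega) hω,
      hJ.far r' h5 (by omega) (by omega) (by omega) hω⟩
  refine (Pr_mono hsub).trans (le_of_eq ?_)
  rw [Pr_inter_of_disjoint ((localOn_A4T' hN u r).inter' (localOn_A4T' hN v r))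
      ((localOn_A2T hN (src u) (by omega : 1 ≤ t) (by omega : t + R ≤ N)).inter'
        (localOn_A4T' hN w r')) ?_,
    Pr_inter_of_disjoint (localOn_A4T' hN u r) (localOn_A4T' hN v r)
      (disj_SR hN (Or.inl (by omega))),
    Pr_inter_of_disjoint (localOn_A2T hN (src u) (by omega : 1 ≤ t) (by omega : t + R ≤ N))
      (localOn_A4T' hN w r') (disj_SR hN (Or.inl (by omega))),
    Pr_A4T q hu (by omega), Pr_A4T q hv (by omega), Pr_A4T q hw (by omega),
    Pr_A2T q _ (by omega)]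
  rw [Finset.disjoint_union_left, Finset.disjoint_union_right, Finset.disjoint_union_right]
  refine ⟨⟨?_, disj_SR hN (Or.inl (by omega))⟩, ⟨?_, disj_SR hN (Or.inl (by omega))⟩⟩
  · exact (disj_SR hN (Or.inr (by rw [dT_self]; omega))).symm
  · exact (disj_SR hN (Or.inr (by omega))).symm

theorem Pr_role_B (q : I) (hu : u ∈ tEdges N) (hv : v ∈ tEdges N) (hw : w ∈ tEdges N)
    (hJ : Role N J u v w) {r r' : ℕ} (hN : 1 ≤ N) (h1 : 1 ≤ r) (h2 : 2 * r < dT N (src u) (src v))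
    (h5 : 1 ≤ r') (h6 : r + r' + 1 < dT N (src u) (src w))
    (h7 : r + r' + 1 < dT N (src v) (src w)) :
    Pr q J ≤ a4 q r * a4 q r * a4 q r' := by
  classical
  have b1 := dT_le_half hN (src u) (src w)
  have b2 := dT_le_half hN (src u) (src v)
  have hsub : J ⊆ (A4T N u r ∩ A4T N v r) ∩ A4T N w r' := by
    intro ω hω
    exact ⟨hJ.near r h1 (by omega) (by omega) (by omega) (by omega) hω,
      hJ.far r' h5 (by omega) (by omega) (by omega) hω⟩
  refine (Pr_mono hsub).trans (le_of_eq ?_)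
  rw [Pr_inter_of_disjoint ((localOn_A4T' hN u r).inter' (localOn_A4T' hN v r))
      (localOn_A4T' hN w r') ?_,
    Pr_inter_of_disjoint (localOn_A4T' hN u r) (localOn_A4T' hN v r)
      (disj_SR hN (Or.inl (by omega))),
    Pr_A4T q hu (by omega), Pr_A4T q hv (by omega), Pr_A4T q hw (by omega)]
  rw [Finset.disjoint_union_left]
  exact ⟨disj_SR hN (Or.inl (by omega)), disj_SR hN (Or.inl (by omega))⟩

theorem Pr_role_C (q : I) (hw : w ∈ tEdges N)
    (hJ : Role N J u v w) {t R r' : ℕ} (hN : 1 ≤ N) (h3 : dT N (src u) (src v) < t) (h4 : t ≤ R)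
    (h5 : 1 ≤ r') (h6 : R + r' + 1 < dT N (src u) (src w)) (h7 : r' + 1 < dT N (src v) (src w)) :
    Pr q J ≤ Pr q (A2 t R) * a4 q r' := by
  classical
  have b1 := dT_le_half hN (src u) (src w)
  have hsub : J ⊆ A2T N (src u) t R ∩ A4T N w r' := by
    intro ω hω
    exact ⟨hJ.ann t R (by omega) h4 (by omega) (by omega) (by omega) hω,
      hJ.far r' h5 (by omega) (by omega) (by omega) hω⟩
  refine (Pr_mono hsub).trans (le_of_eq ?_)
  rw [Pr_inter_of_disjoint (localOn_A2T hN (src u) (by omega : 1 ≤ t) (by omega : t + R ≤ N))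
      (localOn_A4T' hN w r') (disj_SR hN (Or.inl (by omega))), Pr_A4T q hw (by omega),
    Pr_A2T q _ (by omega)]

/-- Comparison of powers. -/
lemma pow_cmp {s : ℝ} (hs : 0 ≤ s) {k x y : ℕ} (hx : 1 ≤ x) (h : y + 1 ≤ k * x) :
    (x : ℝ) ^ (-s) ≤ (k : ℝ) ^ s * ((y : ℝ) + 1) ^ (-s) := by
  have hx0 : (0 : ℝ) < x := by exact_mod_cast hx
  have hk : 1 ≤ k := by
    rcases Nat.eq_zero_or_pos k with h0 | h0
    · rw [h0, zero_mul] at h; omega
    · exact h0
  have hk0 : (0 : ℝ) < k := by exact_mod_cast hk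
  have hy : ((y : ℝ) + 1) ≤ k * x := by exact_mod_cast h
  have hy0 : (0 : ℝ) < (y : ℝ) + 1 := by positivity
  have h1 : ((y : ℝ) + 1) ^ s ≤ (k : ℝ) ^ s * (x : ℝ) ^ s := by
    rw [← Real.mul_rpow hk0.le hx0.le]
    exact Real.rpow_le_rpow hy0.le hy hs
  rw [Real.rpow_neg hx0.le, Real.rpow_neg hy0.le, ← div_eq_mul_inv, le_div_iff₀ (by positivity),
    inv_mul_le_iff₀ (by positivity)]
  rw [mul_comm] at h1
  exact h1

/-- The basic estimate. -/
theorem estimate (hQM : QMann) : ∀ c A s : ℝ, 0 < c → 0 < A → 0 < s →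
    ∃ C : ℝ, 0 < C ∧ ∀ (N : ℕ) (q : I) (J : Set Config) (u v w : Edge) (d₁ d₂ : ℕ), 1 ≤ N →
      1 / 4 ≤ (q : ℝ) → (q : ℝ) ≤ 3 / 4 → RSWreg c (64 * N) q →
      (∀ t : ℕ, 1 ≤ t → t ≤ N → a4 q t ≤ A * (t : ℝ) ^ (-s)) →
      u ∈ tEdges N → v ∈ tEdges N → w ∈ tEdges N → Role N J u v w →
      dT N (src u) (src v) = d₁ → d₁ ≤ d₂ → d₂ ≤ dT N (src u) (src w) →
      d₂ ≤ dT N (src v) (src w) →
      Pr q J ≤ C * (((d₁ : ℝ) + 1) ^ (-s) * (((d₂ : ℝ) + 1) ^ (-s) * ((d₂ : ℝ) + 1) ^ (-s))) := by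
  intro c A s hc hA hs
  obtain ⟨C₁, hC₁, hQ⟩ := hQM c hc
  obtain ⟨K8, hK8⟩ : ∃ K8 : ℝ, K8 = (8 : ℝ) ^ s := ⟨_, rfl⟩
  obtain ⟨K32, hK32⟩ : ∃ K32 : ℝ, K32 = (32 : ℝ) ^ s := ⟨_, rfl⟩
  obtain ⟨K64, hK64⟩ : ∃ K64 : ℝ, K64 = (64 : ℝ) ^ s := ⟨_, rfl⟩
  have p8 : 0 < K8 := by rw [hK8]; positivity
  have p32 : 0 < K32 := by rw [hK32]; positivity
  have p64 : 0 < K64 := by rw [hK64]; positivity
  refine ⟨C₁ * A ^ 3 * K8 ^ 3 + A ^ 3 * K8 ^ 2 * K32 + C₁ * 4 ^ 24 * A ^ 2 * K8 ^ 3 + K8 * K64 ^ 2,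
    by positivity, ?_⟩
  intro N q J u v w d₁ d₂ hN hq1 hq2 hR ha hu hv hw hJ e1 e2 e3 e4
  have b1 := dT_le_half hN (src u) (src w)
  have b2 := dT_le_half hN (src u) (src v)
  obtain ⟨X, hX⟩ : ∃ X : ℝ, X = ((d₁ : ℝ) + 1) ^ (-s) := ⟨_, rfl⟩
  obtain ⟨Y, hY⟩ : ∃ Y : ℝ, Y = ((d₂ : ℝ) + 1) ^ (-s) := ⟨_, rfl⟩
  have hX0 : 0 < X := by rw [hX]; positivity
  have hY0 : 0 < Y := by rw [hY]; positivity
  rw [← hX, ← hY]
  have z1 : 0 ≤ C₁ * A ^ 3 * K8 ^ 3 * (X * (Y * Y)) := by positivity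
  have z2 : 0 ≤ A ^ 3 * K8 ^ 2 * K32 * (X * (Y * Y)) := by positivity
  have z3 : 0 ≤ C₁ * 4 ^ 24 * A ^ 2 * K8 ^ 3 * (X * (Y * Y)) := by positivity
  have z4 : 0 ≤ K8 * K64 ^ 2 * (X * (Y * Y)) := by positivity
  have hexp : (C₁ * A ^ 3 * K8 ^ 3 + A ^ 3 * K8 ^ 2 * K32 + C₁ * 4 ^ 24 * A ^ 2 * K8 ^ 3 +
      K8 * K64 ^ 2) * (X * (Y * Y)) = C₁ * A ^ 3 * K8 ^ 3 * (X * (Y * Y)) +
      A ^ 3 * K8 ^ 2 * K32 * (X * (Y * Y)) + C₁ * 4 ^ 24 * A ^ 2 * K8 ^ 3 * (X * (Y * Y)) +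
      K8 * K64 ^ 2 * (X * (Y * Y)) := by ring
  rw [hexp]
  obtain ⟨g, hg⟩ : ∃ g : ℕ → ℝ, g = fun r => a4 q r := ⟨_, rfl⟩
  have hg0 : ∀ r, 0 ≤ g r := fun r => by rw [hg]; exact a4_nonneg q r
  have hgr : ∀ r, a4 q r = g r := fun r => by rw [hg]
  -- power bounds
  have hpow : ∀ (r y k : ℕ) (K Z : ℝ), 1 ≤ r → r ≤ N → y + 1 ≤ k * r → K = (k : ℝ) ^ s →
      Z = ((y : ℝ) + 1) ^ (-s) → g r ≤ A * K * Z := by
    intro r y k K Z h1 h2 h3 h4 h5
    rw [← hgr, h4, h5, mul_assoc]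
    exact (ha r h1 h2).trans (mul_le_mul_of_nonneg_left (pow_cmp hs.le h1 h3) hA.le)
  by_cases hd1 : 8 ≤ d₁
  · by_cases hcase : 16 * (d₁ / 4) ≤ d₂ / 2
    · -- annulus
      have h1 := Pr_role_A q hu hv hw hJ (r := d₁ / 4) (t := 16 * (d₁ / 4)) (R := d₂ / 2)
        (r' := d₂ / 4) hN (by omega) (by omega) (by omega) hcase (by omega) (by omega) (by omega)
      have h2 := hQ (64 * N) (d₁ / 4) (d₂ / 2) q (by omega) hcase (by omega) hR
      have h3 := hpow (d₁ / 4) d₁ 8 K8 X (by omega) (by omega) (by omega) hK8 hX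
      have h4 := hpow (d₂ / 4) d₂ 8 K8 Y (by omega) (by omega) (by omega) hK8 hY
      have h5 := hpow (d₂ / 2) d₂ 8 K8 Y (by omega) (by omega) (by omega) hK8 hY
      rw [hgr, hgr] at h1
      rw [hgr, hgr] at h2
      have hA20 : 0 ≤ Pr q (A2 (16 * (d₁ / 4)) (d₂ / 2)) := Pr_nonneg
      have h6 : g (d₁ / 4) * g (d₁ / 4) * (Pr q (A2 (16 * (d₁ / 4)) (d₂ / 2)) * g (d₂ / 4)) ≤
          C₁ * A ^ 3 * K8 ^ 3 * (X * (Y * Y)) := by
        calc g (d₁ / 4) * g (d₁ / 4) * (Pr q (A2 (16 * (d₁ / 4)) (d₂ / 2)) * g (d₂ / 4))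
            = g (d₁ / 4) * (g (d₁ / 4) * Pr q (A2 (16 * (d₁ / 4)) (d₂ / 2))) * g (d₂ / 4) := by
              ring
          _ ≤ (A * K8 * X) * (C₁ * (A * K8 * Y)) * (A * K8 * Y) := by
              refine mul_le_mul (mul_le_mul h3 (h2.trans ?_) (mul_nonneg (hg0 _) hA20)
                (by positivity)) h4 (hg0 _) (by positivity)
              exact mul_le_mul_of_nonneg_left h5 hC₁.le
          _ = _ := by ring
      linarith
    · -- comparable distances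
      have h1 := Pr_role_B q hu hv hw hJ (r := d₁ / 4) (r' := d₂ / 4) hN (by omega) (by omega)
        (by omega) (by omega) (by omega)
      have h3 := hpow (d₁ / 4) d₁ 8 K8 X (by omega) (by omega) (by omega) hK8 hX
      have h3' := hpow (d₁ / 4) d₂ 32 K32 Y (by omega) (by omega) (by omega) hK32 hY
      have h4 := hpow (d₂ / 4) d₂ 8 K8 Y (by omega) (by omega) (by omega) hK8 hY
      rw [hgr, hgr] at h1
      have h6 : g (d₁ / 4) * g (d₁ / 4) * g (d₂ / 4) ≤ A ^ 3 * K8 ^ 2 * K32 * (X * (Y * Y)) := by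
        calc g (d₁ / 4) * g (d₁ / 4) * g (d₂ / 4) ≤ (A * K8 * X) * (A * K32 * Y) * (A * K8 * Y) :=
              mul_le_mul (mul_le_mul h3 h3' (hg0 _) (by positivity)) h4 (hg0 _) (by positivity)
          _ = _ := by ring
      linarith
  · push Not at hd1
    have hXone : 1 ≤ K8 * X := by
      have h1 := pow_cmp hs.le (k := 8) (x := 1) (y := d₁) le_rfl (by omega)
      rw [Nat.cast_one, Real.one_rpow] at h1
      rw [hK8, hX]
      exact_mod_cast h1
    by_cases hd2 : 64 ≤ d₂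
    · have h1 := Pr_role_C q hw hJ (t := 16) (R := d₂ / 2) (r' := d₂ / 4) hN (by omega) (by omega)
        (by omega) (by omega) (by omega)
      have h2 := hQ (64 * N) 1 (d₂ / 2) q le_rfl (by omega) (by omega) hR
      have h4 := hpow (d₂ / 4) d₂ 8 K8 Y (by omega) (by omega) (by omega) hK8 hY
      have h5 := hpow (d₂ / 2) d₂ 8 K8 Y (by omega) (by omega) (by omega) hK8 hY
      have h7 := a4_one q hq1 hq2
      rw [hgr] at h1
      rw [mul_one, hgr (d₂ / 2)] at h2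
      have hA20 : 0 ≤ Pr q (A2 16 (d₂ / 2)) := Pr_nonneg
      have h8 : Pr q (A2 16 (d₂ / 2)) ≤ C₁ * 4 ^ 24 * (A * K8 * Y) := by
        have h9 : (1 / 4 : ℝ) ^ 24 * Pr q (A2 16 (d₂ / 2)) ≤ C₁ * (A * K8 * Y) :=
          (mul_le_mul_of_nonneg_right h7 hA20).trans
            (h2.trans (mul_le_mul_of_nonneg_left h5 hC₁.le))
        calc Pr q (A2 16 (d₂ / 2)) = 4 ^ 24 * ((1 / 4 : ℝ) ^ 24 * Pr q (A2 16 (d₂ / 2))) := by
              rw [← mul_assoc, ← mul_pow]; norm_num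
          _ ≤ 4 ^ 24 * (C₁ * (A * K8 * Y)) := mul_le_mul_of_nonneg_left h9 (by positivity)
          _ = _ := by ring
      have h6 : Pr q (A2 16 (d₂ / 2)) * g (d₂ / 4) ≤
          C₁ * 4 ^ 24 * A ^ 2 * K8 ^ 3 * (X * (Y * Y)) := by
        calc Pr q (A2 16 (d₂ / 2)) * g (d₂ / 4) ≤ (C₁ * 4 ^ 24 * (A * K8 * Y)) * (A * K8 * Y) :=
              mul_le_mul h8 h4 (hg0 _) (by positivity)
          _ = C₁ * 4 ^ 24 * A ^ 2 * K8 ^ 2 * (Y * Y) * 1 := by ring
          _ ≤ C₁ * 4 ^ 24 * A ^ 2 * K8 ^ 2 * (Y * Y) * (K8 * X) :=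
              mul_le_mul_of_nonneg_left hXone (by positivity)
          _ = _ := by ring
      linarith
    · push Not at hd2
      have hYone : 1 ≤ K64 * Y := by
        have h1 := pow_cmp hs.le (k := 64) (x := 1) (y := d₂) le_rfl (by omega)
        rw [Nat.cast_one, Real.one_rpow] at h1
        rw [hK64, hY]
        exact_mod_cast h1
      have h1 : Pr q J ≤ 1 := Pr_le_one
      have h2 : (1 : ℝ) ≤ K8 * K64 ^ 2 * (X * (Y * Y)) := by
        calc (1 : ℝ) = 1 * (1 * 1) := by ring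
          _ ≤ (K8 * X) * ((K64 * Y) * (K64 * Y)) :=
              mul_le_mul hXone (mul_le_mul hYone hYone zero_le_one (by positivity)) (by norm_num)
                (by positivity)
          _ = _ := by ring
      linarith

end Pool.Agent.H90.AL
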