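import Pool.Agent.H90.AL.Dist
import Pool.Agent.H31.AL.Defs

/-!
# Arms of a pivotal edge for the connection event on the torus
-/

open MeasureTheory ProbabilityTheory unitInterval

namespace Pool.Agent.H90.AL

open Pool.Agent.H89.Perc Pool.Agent.H61.NC Pool.Agent.H31.AL

/-- Periodic configurations. -/
def IsPer (N : ℕ) (η : Config) : Prop := ∀ (a b : ℤ) (f : Edge), η (shiftE (a * N, b * N) f) = η f

lemma isPer_per (N : ℕ) (ω : Config) : IsPer N (per N ω) := by
  intro a b f
  simp only [per, shiftE]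
  rw [Int.add_mul_emod_self_right, Int.add_mul_emod_self_right]

lemma conn_per {N : ℕ} {η : Config} (hη : IsPer N η) (a b : ℤ) {u v : Vert}
    (h : Conn η Set.univ u v) :
    Conn η Set.univ (u.1 + a * N, u.2 + b * N) (v.1 + a * N, v.2 + b * N) := by
  have h1 := conn_shift (ω := η) (a * N, b * N) Set.univ u v
  have h2 : (fun e => η (shiftE (a * N, b * N) e)) = η := by
    funext e
    exact hη a b e
  rw [h2] at h1
  exact (h1.1 h).mono_set (Set.subset_univ _)

/-- Contraction of the translates of a small cluster. -/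
theorem retract {N r : ℕ} (hN : 2 * r + 2 ≤ N) (x p q : Vert)
    (η0 η1 : Config)
    (hper : ∀ (a b : ℤ) (u v : Vert), Conn η0 Set.univ u v →
      Conn η0 Set.univ (u.1 + a * N, u.2 + b * N) (v.1 + a * N, v.2 + b * N))
    (hstep : ∀ v v' : Vert, Step η1 Set.univ v v' → Step η0 Set.univ v v' ∨ ∃ a b : ℤ,
      (v = (p.1 + a * N, p.2 + b * N) ∧ v' = (q.1 + a * N, q.2 + b * N)) ∨
      (v = (q.1 + a * N, q.2 + b * N) ∧ v' = (p.1 + a * N, p.2 + b * N)))
    (hq : |q.1 - x.1| ≤ 1 ∧ |q.2 - x.2| ≤ 1) (hpq : ¬ Conn η0 Set.univ p q)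
    (hC : ∀ v : Vert, Conn η0 Set.univ p v → |v.1 - x.1| ≤ r ∧ |v.2 - x.2| ≤ r)
    (u v : Vert) (hu : ∀ a b : ℤ, ¬ Conn η0 Set.univ p (u.1 - a * N, u.2 - b * N))
    (hv : ∀ a b : ℤ, ¬ Conn η0 Set.univ p (v.1 - a * N, v.2 - b * N))
    (h : Conn η1 Set.univ u v) : Conn η0 Set.univ u v := by
  classical
  have hN' : (2 * r + 2 : ℤ) ≤ N := by exact_mod_cast hN
  -- membership in the translate of the cluster
  obtain ⟨Cl, hCl⟩ : ∃ Cl : ℤ → ℤ → Vert → Prop, ∀ a b v, Cl a b v ↔
      Conn η0 Set.univ p (v.1 - a * N, v.2 - b * N) := ⟨_, fun _ _ _ => Iff.rfl⟩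
  have hmul : ∀ c : ℤ, |c * N| < N → c = 0 := by
    intro c hc
    by_contra h0
    have h1 : 1 ≤ |c| := Int.one_le_abs h0
    rw [abs_mul, abs_of_nonneg (by omega : (0 : ℤ) ≤ N)] at hc
    nlinarith
  have huniq : ∀ a b a' b' v, Cl a b v → Cl a' b' v → a = a' ∧ b = b' := by
    intro a b a' b' v h1 h2
    have h3 := hC _ ((hCl _ _ _).1 h1)
    have h4 := hC _ ((hCl _ _ _).1 h2)
    simp only at h3 h4
    have h5 : a - a' = 0 := by
      apply hmul
      have e1 : (a - a') * N = (v.1 - a' * N - x.1) - (v.1 - a * N - x.1) := by ring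
      rw [e1]
      have := abs_sub (v.1 - a' * N - x.1) (v.1 - a * N - x.1)
      omega
    have h6 : b - b' = 0 := by
      apply hmul
      have e1 : (b - b') * N = (v.2 - b' * N - x.2) - (v.2 - b * N - x.2) := by ring
      rw [e1]
      have := abs_sub (v.2 - b' * N - x.2) (v.2 - b * N - x.2)
      omega
    exact ⟨by omega, by omega⟩
  have hshift : ∀ a b c d v, Cl a b v → Cl (a + c) (b + d) (v.1 + c * N, v.2 + d * N) := by
    intro a b c d v h1
    rw [hCl] at h1 ⊢
    have e1 : ((v.1 + c * N - (a + c) * N, v.2 + d * N - (b + d) * N) : Vert) =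
        (v.1 - a * N, v.2 - b * N) := by
      ext <;> (simp only; ring)
    simp only at e1 ⊢
    rw [e1]
    exact h1
  have hqC : ∀ a b c d, ¬ Cl a b (q.1 + c * N, q.2 + d * N) := by
    intro a b c d h1
    rw [hCl] at h1
    have h3 := hC _ h1
    simp only at h3
    have h5 : c - a = 0 := by
      apply hmul
      have e1 : (c - a) * N = (q.1 + c * N - a * N - x.1) - (q.1 - x.1) := by ring
      rw [e1]
      have := abs_sub (q.1 + c * N - a * N - x.1) (q.1 - x.1)
      omega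
    have h6 : d - b = 0 := by
      apply hmul
      have e1 : (d - b) * N = (q.2 + d * N - b * N - x.2) - (q.2 - x.2) := by ring
      rw [e1]
      have := abs_sub (q.2 + d * N - b * N - x.2) (q.2 - x.2)
      omega
    have h7 : c = a := by omega
    have h8 : d = b := by omega
    subst h7 h8
    apply hpq
    have e1 : ((q.1 + c * N - c * N, q.2 + d * N - d * N) : Vert) = q := by
      ext <;> (simp only; ring)
    simp only at h1
    rw [e1] at h1
    exact h1
  have hpC : ∀ c d, Cl c d (p.1 + c * N, p.2 + d * N) := by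
    intro c d
    rw [hCl]
    have e1 : ((p.1 + c * N - c * N, p.2 + d * N - d * N) : Vert) = p := by
      ext <;> (simp only; ring)
    simp only
    rw [e1]
    exact Conn.refl (Set.mem_univ _)
  -- closure under steps
  have hclose : ∀ a b v v', Step η0 Set.univ v v' → Cl a b v → Cl a b v' := by
    intro a b v v' h1 h2
    rw [hCl] at h2 ⊢
    have h3 := hper (-a) (-b) v v' h1.conn
    have e1 : ∀ w : Vert, ((w.1 + -a * N, w.2 + -b * N) : Vert) = (w.1 - a * N, w.2 - b * N) := by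
      intro w
      ext <;> (simp only; ring)
    rw [e1, e1] at h3
    exact h2.trans h3
  obtain ⟨g, hg⟩ : ∃ g : Vert → Vert, g = fun v => if h : ∃ c : ℤ × ℤ, Cl c.1 c.2 v then
      (q.1 + h.choose.1 * N, q.2 + h.choose.2 * N) else v := ⟨_, rfl⟩
  have hg1 : ∀ a b v, Cl a b v → g v = (q.1 + a * N, q.2 + b * N) := by
    intro a b v h1
    have h2 : ∃ c : ℤ × ℤ, Cl c.1 c.2 v := ⟨(a, b), h1⟩
    rw [hg]
    simp only
    rw [dif_pos h2]
    obtain ⟨h3, h4⟩ := huniq _ _ _ _ v h2.choose_spec h1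
    rw [h3, h4]
  have hg2 : ∀ v, (∀ a b, ¬ Cl a b v) → g v = v := by
    intro v h1
    have h2 : ¬ ∃ c : ℤ × ℤ, Cl c.1 c.2 v := by
      rintro ⟨c, hc⟩
      exact h1 _ _ hc
    rw [hg]
    simp only
    rw [dif_neg h2]
  have hg3 : ∀ v c d, g (v.1 + c * N, v.2 + d * N) = ((g v).1 + c * N, (g v).2 + d * N) := by
    intro v c d
    by_cases h1 : ∃ c : ℤ × ℤ, Cl c.1 c.2 v
    · obtain ⟨k, hk⟩ := h1
      rw [hg1 _ _ v hk, hg1 _ _ _ (hshift k.1 k.2 c d v hk)]
      ext <;> (simp only; ring)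
    · have h2 : ∀ a b, ¬ Cl a b v := fun a b h => h1 ⟨(a, b), h⟩
      rw [hg2 v h2, hg2]
      intro a b h3
      have h4 := hshift a b (-c) (-d) _ h3
      have e1 : (((v.1 + c * N) + -c * N, (v.2 + d * N) + -d * N) : Vert) = v := by
        ext <;> (simp only; ring)
      simp only at h4
      rw [e1] at h4
      exact h2 _ _ h4
  have hgu : g u = u := hg2 u fun a b hcl => hu a b ((hCl _ _ _).1 hcl)
  have hgv : g v = v := hg2 v fun a b hcl => hv a b ((hCl _ _ _).1 hcl)
  suffices hsuf : Conn η0 Set.univ (g u) (g v) by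
    rw [hgu, hgv] at hsuf
    exact hsuf
  clear hgu hgv hu hv
  refine h.induction_right (P := fun v => Conn η0 Set.univ (g u) (g v))
    (Conn.refl (Set.mem_univ _)) ?_
  intro v v' _ hvv hv
  rcases hstep v v' hvv with h1 | ⟨c, d, h1 | h1⟩
  · by_cases h2 : ∃ c : ℤ × ℤ, Cl c.1 c.2 v
    · obtain ⟨k, hk⟩ := h2
      rw [hg1 _ _ v hk] at hv
      rw [hg1 _ _ v' (hclose _ _ _ _ h1 hk)]
      exact hv
    · have h3 : ∀ a b, ¬ Cl a b v := fun a b h => h2 ⟨(a, b), h⟩
      have h4 : ∀ a b, ¬ Cl a b v' := fun a b h => h3 a b (hclose _ _ _ _ h1.symm h)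
      rw [hg2 v h3] at hv
      rw [hg2 v' h4]
      exact hv.tail h1
  · obtain ⟨h2, h3⟩ := h1
    rw [h2, hg1 _ _ _ (hpC c d)] at hv
    rw [h3, hg2 _ fun a b => hqC a b c d]
    exact hv
  · obtain ⟨h2, h3⟩ := h1
    rw [h2, hg2 _ fun a b => hqC a b c d] at hv
    rw [h3, hg1 _ _ _ (hpC c d)]
    exact hv

lemma tgt_near (f : Edge) : |(tgt f).1 - (src f).1| ≤ 1 ∧ |(tgt f).2 - (src f).2| ≤ 1 := by
  obtain ⟨x, y, c⟩ := f
  cases c
  · simp [src, tgt]
  · simp [src, tgt]

/-- The steps of `η1` are steps of `η0` or join the endpoints of a translate of `f`. -/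
def AddEdge (N : ℕ) (f : Edge) (η0 η1 : Config) : Prop :=
  ∀ v v' : Vert, Step η1 Set.univ v v' → Step η0 Set.univ v v' ∨ ∃ a b : ℤ,
    (v = ((src f).1 + a * N, (src f).2 + b * N) ∧ v' = ((tgt f).1 + a * N, (tgt f).2 + b * N)) ∨
    (v = ((tgt f).1 + a * N, (tgt f).2 + b * N) ∧ v' = ((src f).1 + a * N, (src f).2 + b * N))

/-- Abstract form: the added edge is pivotal for a connection between far vertices. -/
theorem arms_of_added {N r : ℕ} (hr : 1 ≤ r) (hN : 2 * r + 2 ≤ N) {f : Edge} {η0 η1 : Config}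
    (hper : IsPer N η0) (hadd : AddEdge N f η0 η1) {X Y : Vert}
    (hX : ∀ a b : ℤ, (X.1 - a * N, X.2 - b * N) ∉ ball (src f) r)
    (hY : ∀ a b : ℤ, (Y.1 - a * N, Y.2 - b * N) ∉ ball (src f) r)
    (h1 : Conn η1 Set.univ X Y) (h0 : ¬ Conn η0 Set.univ X Y) :
    (∃ u ∈ sphere (src f) r, Conn η0 (ball (src f) r) (src f) u) ∧
    (∃ u ∈ sphere (src f) r, Conn η0 (ball (src f) r) (tgt f) u) ∧
    ¬ Conn η0 Set.univ (src f) (tgt f) := by
  have hN' : (2 * r + 2 : ℤ) ≤ N := by exact_mod_cast hN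
  have hxy : ¬ Conn η0 Set.univ (src f) (tgt f) := by
    intro h
    apply h0
    refine h1.induction_right (P := fun v => Conn η0 Set.univ X v)
      (Conn.refl (Set.mem_univ _)) ?_
    intro v v' _ hvv hv
    rcases hadd v v' hvv with h3 | ⟨c, d, h3 | h3⟩
    · exact hv.tail h3
    · rw [h3.1] at hv
      rw [h3.2]
      exact hv.trans (conn_per hper c d h)
    · rw [h3.1] at hv
      rw [h3.2]
      exact hv.trans (conn_per hper c d h.symm)
  have htb : tgt f ∈ ball (src f) r := by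
    have h3 := abs_le.1 (tgt_near f).1
    have h4 := abs_le.1 (tgt_near f).2
    rw [mem_ball]
    omega
  have hsmall : ∀ p : Vert, p ∈ ball (src f) r →
      (¬ ∃ u ∈ sphere (src f) r, Conn η0 (ball (src f) r) p u) →
      ∀ v : Vert, Conn η0 Set.univ p v → |v.1 - (src f).1| ≤ r ∧ |v.2 - (src f).2| ≤ r := by
    intro p hp hno v hv
    by_contra hcon
    have h3 : v ∉ ball (src f) r := by
      intro h
      apply hcon
      rw [mem_ball] at h
      rw [abs_le, abs_le]
      omega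
    obtain ⟨w, hw, hc⟩ := hv.to_sphere hp (Or.inl h3)
    exact hno ⟨w, hw, hc.mono_set Set.inter_subset_right⟩
  have hball : ∀ v : Vert, |v.1 - (src f).1| ≤ r ∧ |v.2 - (src f).2| ≤ r → v ∈ ball (src f) r := by
    intro v hv
    rw [abs_le, abs_le] at hv
    rw [mem_ball]
    omega
  refine ⟨?_, ?_, hxy⟩
  · by_contra hno
    have hs := hsmall (src f) self_mem_ball hno
    exact h0 (retract hN (src f) (src f) (tgt f) η0 η1 (fun a b u v h => conn_per hper a b h)
      hadd (tgt_near f) hxy hs X Y (fun a b h => hX a b (hball _ (hs _ h)))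
      (fun a b h => hY a b (hball _ (hs _ h))) h1)
  · by_contra hno
    have hs := hsmall (tgt f) htb hno
    exact h0 (retract hN (src f) (tgt f) (src f) η0 η1 (fun a b u v h => conn_per hper a b h)
      (fun v v' h => by
        rcases hadd v v' h with h3 | ⟨c, d, h3 | h3⟩
        · exact Or.inl h3
        · exact Or.inr ⟨c, d, Or.inr h3⟩
        · exact Or.inr ⟨c, d, Or.inl h3⟩)
      (by simp) (fun h => hxy h.symm) hs X Y (fun a b h => hX a b (hball _ (hs _ h)))
      (fun a b h => hY a b (hball _ (hs _ h))) h1)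

/-- The cluster of a vertex reaches the added edge. -/
theorem touch_of_added {N : ℕ} {f : Edge} {η0 η1 : Config} (hadd : AddEdge N f η0 η1)
    {X Y : Vert} (h1 : Conn η1 Set.univ X Y) (h0 : ¬ Conn η0 Set.univ X Y) :
    ∃ a b : ℤ, Conn η0 Set.univ X ((src f).1 + a * N, (src f).2 + b * N) ∨
      Conn η0 Set.univ X ((tgt f).1 + a * N, (tgt f).2 + b * N) := by
  have key : Conn η0 Set.univ X Y ∨ ∃ a b : ℤ,
      Conn η0 Set.univ X ((src f).1 + a * N, (src f).2 + b * N) ∨
      Conn η0 Set.univ X ((tgt f).1 + a * N, (tgt f).2 + b * N) := by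
    refine h1.induction_right (P := fun v => Conn η0 Set.univ X v ∨ ∃ a b : ℤ,
      Conn η0 Set.univ X ((src f).1 + a * N, (src f).2 + b * N) ∨
      Conn η0 Set.univ X ((tgt f).1 + a * N, (tgt f).2 + b * N))
      (Or.inl (Conn.refl (Set.mem_univ _))) ?_
    intro v v' _ hvv hv
    rcases hv with hv | hv
    · rcases hadd v v' hvv with h3 | ⟨c, d, h3 | h3⟩
      · exact Or.inl (hv.tail h3)
      · right
        rw [h3.1] at hv
        exact ⟨c, d, Or.inl hv⟩
      · right
        rw [h3.1] at hv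
        exact ⟨c, d, Or.inr hv⟩
    · exact Or.inr hv
  rcases key with h | h
  · exact absurd h h0
  · exact h

/-! ### Crossing clusters of an annulus -/

/-- A path from `ball c t` to the outside of `ball c R` crosses the annulus. -/
theorem ann_cross {η : Config} {c w w' : Vert} {t R : ℕ} (ht : 1 ≤ t) (hR : t ≤ R)
    (hw : w ∈ ball c t) (hw' : w' ∉ ball c R) (h : Conn η Set.univ w w') :
    ∃ u ∈ sphere c R, ∃ v ∈ sphere c t, Conn η (ball c R \ ball c (t - 1)) u v ∧
      Conn η Set.univ w u := by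
  have hwR : w ∈ ball c R := by
    rw [mem_ball] at hw ⊢
    omega
  obtain ⟨u, hu, hc⟩ := h.to_sphere hwR (Or.inl hw')
  have hc' : Conn η (ball c R) w u := hc.mono_set Set.inter_subset_right
  -- the last visit of the small ball
  have hut : u ∉ ball c (t - 1) := by
    have h1 := hu.2
    intro h2
    rw [mem_ball] at h2
    omega
  have key : Conn η (ball c R \ ball c (t - 1)) w u ∨ ∃ z ∈ ball c (t - 1), Conn η (ball c R) z u := by
    refine hc'.symm.induction_right (P := fun v => Conn η (ball c R \ ball c (t - 1)) v u ∨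
      ∃ z ∈ ball c (t - 1), Conn η (ball c R) z u) (Or.inl (Conn.refl ⟨hu.1, hut⟩)) ?_
    intro a b hua hab ha
    rcases ha with ha | ha
    · by_cases hb : b ∈ ball c (t - 1)
      · right
        exact ⟨b, hb, (hua.tail hab).symm⟩
      · left
        have h1 : Step η (ball c R \ ball c (t - 1)) b a :=
          ⟨⟨hab.2.1, hb⟩, ha.mem_left, hab.symm.2.2⟩
        exact h1.conn.trans ha
    · exact Or.inr ha
  rcases key with h1 | ⟨z, hz, h1⟩
  · refine ⟨u, hu, w, ⟨hw, ?_⟩, h1.symm, hc.mono_set (Set.subset_univ _)⟩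
    have h2 := h1.mem_left.2
    rw [mem_ball] at h2 hw
    omega
  · obtain ⟨v, v', hv, hzv, hvv, hv'u⟩ := h1.exists_last hz hut
    refine ⟨u, hu, v', ⟨?_, ?_⟩, hv'u.symm, hc.mono_set (Set.subset_univ _)⟩
    · have h2 := hvv.fst_le
      have h3 := hvv.snd_le
      rw [mem_ball] at hv ⊢
      omega
    · have h2 := hvv.fst_le
      have h3 := hvv.snd_le
      have h4 := hv'u.mem_left.2
      rw [mem_ball] at hv h4
      omega

/-- Two vertices in different clusters of the torus, both joined inside and outside of an annulus,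
give two crossing clusters. -/
theorem A2_of_cross {N : ℕ} {η : Config} (hper : IsPer N η) {X Y c : Vert} {t R : ℕ}
    (ht : 1 ≤ t) (hR : t ≤ R)
    (hXY : ∀ a b : ℤ, ¬ Conn η Set.univ X (Y.1 + a * N, Y.2 + b * N))
    {a b a' b' : ℤ} {w1 w2 w1' w2' : Vert}
    (hw1 : (w1.1 - a * N, w1.2 - b * N) ∈ ball c t) (hw2 : (w2.1 - a * N, w2.2 - b * N) ∉ ball c R)
    (h1 : Conn η Set.univ X w1) (h2 : Conn η Set.univ X w2)
    (hw1' : (w1'.1 - a' * N, w1'.2 - b' * N) ∈ ball c t)
    (hw2' : (w2'.1 - a' * N, w2'.2 - b' * N) ∉ ball c R)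
    (h1' : Conn η Set.univ Y w1') (h2' : Conn η Set.univ Y w2') :
    (fun g => η (shiftE c g)) ∈ Pool.Agent.H29.Sep.A2 t R := by
  -- translate
  have e : ∀ (a b : ℤ) (w : Vert), ((w.1 + -a * N, w.2 + -b * N) : Vert) =
      (w.1 - a * N, w.2 - b * N) := by
    intro a b w
    ext <;> (simp only; ring)
  have k1 := conn_per hper (-a) (-b) (h1.symm.trans h2)
  have k1' := conn_per hper (-a') (-b') (h1'.symm.trans h2')
  rw [e, e] at k1 k1'
  obtain ⟨u, hu, v, hv, huv, hwu⟩ := ann_cross ht hR hw1 hw2 k1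
  obtain ⟨u', hu', v', hv', huv', hwu'⟩ := ann_cross ht hR hw1' hw2' k1'
  have hdom : {w : Vert | (w.1 - c.1, w.2 - c.2) ∈ Pool.Agent.H29.Sep.dom t R} =
      ball c R \ ball c (t - 1) := by
    ext w
    simp only [Pool.Agent.H29.Sep.dom, Set.mem_ofPred_eq, Set.mem_sdiff, mem_ball, Prod.fst_zero,
      Prod.snd_zero]
    constructor
    · rintro ⟨g1, g2⟩
      refine ⟨by omega, fun g3 => g2 (by omega)⟩
    · rintro ⟨g1, g2⟩
      refine ⟨by omega, fun g3 => g2 (by omega)⟩
  have hsh : ∀ x y : Vert, Conn η (ball c R \ ball c (t - 1)) x y ↔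
      Conn (fun g => η (shiftE c g)) (Pool.Agent.H29.Sep.dom t R) (x.1 - c.1, x.2 - c.2)
        (y.1 - c.1, y.2 - c.2) := by
    intro x y
    rw [conn_shift, hdom]
    simp only [sub_add_cancel]
  have hsp : ∀ (x : Vert) (r : ℕ), x ∈ sphere c r → ((x.1 - c.1, x.2 - c.2) : Vert) ∈ sphere 0 r := by
    rintro x r ⟨g1, g2⟩
    rw [mem_ball] at g1
    refine ⟨?_, ?_⟩
    · simp only [mem_ball, Prod.fst_zero, Prod.snd_zero]
      omega
    · simp only [Prod.fst_zero, Prod.snd_zero]
      omega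
  refine ⟨_, hsp u R hu, _, hsp u' R hu', _, hsp v t hv, _, hsp v' t hv', (hsh u v).1 huv,
    (hsh u' v').1 huv', fun hcon => ?_⟩
  rw [← hsh] at hcon
  -- `X` is joined to a translate of `Y`
  have g1 : Conn η Set.univ (w1.1 - a * N, w1.2 - b * N) (w1'.1 - a' * N, w1'.2 - b' * N) :=
    (hwu.trans (hcon.mono_set (Set.subset_univ _))).trans hwu'.symm
  have g2 := conn_per hper a b g1
  have e2 : ((w1.1 - a * N + a * N, w1.2 - b * N + b * N) : Vert) = w1 := by
    ext <;> (simp only; ring)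
  simp only at g2
  rw [e2] at g2
  have g3 := conn_per hper (a - a') (b - b') h1'
  have e3 : ((w1'.1 - a' * N + a * N, w1'.2 - b' * N + b * N) : Vert) =
      (w1'.1 + (a - a') * N, w1'.2 + (b - b') * N) := by
    ext <;> (simp only; ring)
  rw [e3] at g2
  exact hXY (a - a') (b - b') ((h1.trans g2).trans g3.symm)

end Pool.Agent.H90.AL
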