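import Pool.Agent.H61.NC.Second
import Pool.Agent.H61.NC.Det
import Pool.Agent.H29.Sep.Iface
import Pool.Agent.H90.NC.Circ

/-!
# Distances on the torus
-/

open MeasureTheory ProbabilityTheory unitInterval

namespace Pool.Agent.H90.AL

open Pool.Agent.H89.Perc Pool.Agent.H61.NC

/-- Distance of an integer to the multiples of `N`. -/
def dZ (N : ℕ) (t : ℤ) : ℕ := (t.bmod N).natAbs

/-- Distance on the torus. -/
def dT (N : ℕ) (u v : Vert) : ℕ := max (dZ N (u.1 - v.1)) (dZ N (u.2 - v.2))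

lemma dZ_exists (N : ℕ) (t : ℤ) : ∃ k : ℤ, |t - k * N| = dZ N t := by
  refine ⟨t.bdiv N, ?_⟩
  have h := Int.bmod_add_bdiv t N
  unfold dZ
  rw [Int.natCast_natAbs]
  congr 1
  linarith

lemma dZ_le_half {N : ℕ} (hN : 1 ≤ N) (t : ℤ) : 2 * dZ N t ≤ N := by
  have h1 := Int.le_bmod (x := t) (m := N) (by omega)
  have h2 := Int.bmod_le (x := t) (m := N) (by omega)
  unfold dZ
  omega

lemma dZ_min {N : ℕ} (hN : 1 ≤ N) (t k : ℤ) : (dZ N t : ℤ) ≤ |t - k * N| := by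
  obtain ⟨k0, hk0⟩ := dZ_exists N t
  have h1 := dZ_le_half hN t
  obtain ⟨b, hb⟩ : ∃ b, b = t - k0 * N := ⟨_, rfl⟩
  rw [← hb] at hk0
  have e : t - k * N = b + (k0 - k) * N := by rw [hb]; ring
  rw [e]
  rcases lt_trichotomy (k0 - k) 0 with h | h | h
  · have h2 : (k0 - k) * N ≤ -1 * N := mul_le_mul_of_nonneg_right (by omega) (by omega)
    rcases abs_cases b with h3 | h3 <;> rcases abs_cases (b + (k0 - k) * N) with h4 | h4 <;> omega
  · rw [h, zero_mul, add_zero, hk0]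
  · have h2 : 1 * N ≤ (k0 - k) * N := mul_le_mul_of_nonneg_right (by omega) (by omega)
    rcases abs_cases b with h3 | h3 <;> rcases abs_cases (b + (k0 - k) * N) with h4 | h4 <;> omega

lemma dZ_neg {N : ℕ} (hN : 1 ≤ N) (t : ℤ) : dZ N (-t) = dZ N t := by
  have key : ∀ t : ℤ, (dZ N (-t) : ℤ) ≤ dZ N t := by
    intro t
    obtain ⟨k, hk⟩ := dZ_exists N t
    rw [← hk]
    refine (dZ_min hN (-t) (-k)).trans (le_of_eq ?_)
    rw [← abs_neg]
    congr 1
    ring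
  have h1 := key t
  have h2 := key (-t)
  rw [neg_neg] at h2
  omega

lemma dZ_add {N : ℕ} (hN : 1 ≤ N) (s t : ℤ) : dZ N (s + t) ≤ dZ N s + dZ N t := by
  obtain ⟨k, hk⟩ := dZ_exists N s
  obtain ⟨k', hk'⟩ := dZ_exists N t
  have h := dZ_min hN (s + t) (k + k')
  have e : s + t - (k + k') * N = (s - k * N) + (t - k' * N) := by ring
  rw [e] at h
  have h2 := abs_add_le (s - k * N) (t - k' * N)
  omega

lemma dT_self (N : ℕ) (u : Vert) : dT N u u = 0 := by
  unfold dT dZ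
  simp

lemma dT_comm {N : ℕ} (hN : 1 ≤ N) (u v : Vert) : dT N u v = dT N v u := by
  unfold dT
  rw [← dZ_neg hN (u.1 - v.1), ← dZ_neg hN (u.2 - v.2), neg_sub, neg_sub]

lemma dT_tri {N : ℕ} (hN : 1 ≤ N) (u v w : Vert) : dT N u w ≤ dT N u v + dT N v w := by
  unfold dT
  have h1 := dZ_add hN (u.1 - v.1) (v.1 - w.1)
  have h2 := dZ_add hN (u.2 - v.2) (v.2 - w.2)
  rw [sub_add_sub_cancel] at h1 h2
  omega

lemma dT_le_half {N : ℕ} (hN : 1 ≤ N) (u v : Vert) : 2 * dT N u v ≤ N := by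
  unfold dT
  have h1 := dZ_le_half hN (u.1 - v.1)
  have h2 := dZ_le_half hN (u.2 - v.2)
  omega

/-- A translate at distance at most `r`. -/
lemma dT_le_of {N : ℕ} (hN : 1 ≤ N) {u v : Vert} {r : ℕ} (a b : ℤ)
    (h : (u.1 - a * N, u.2 - b * N) ∈ ball v r) : dT N u v ≤ r := by
  rw [mem_ball] at h
  simp only at h
  unfold dT
  have h1 := dZ_min hN (u.1 - v.1) a
  have h2 := dZ_min hN (u.2 - v.2) b
  have h3 : |u.1 - v.1 - a * N| ≤ r := by rw [abs_le]; constructor <;> linarith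
  have h4 : |u.2 - v.2 - b * N| ≤ r := by rw [abs_le]; constructor <;> linarith
  omega

lemma exists_of_dT_le {N : ℕ} {u v : Vert} {r : ℕ} (h : dT N u v ≤ r) :
    ∃ a b : ℤ, (u.1 - a * N, u.2 - b * N) ∈ ball v r := by
  obtain ⟨a, ha⟩ := dZ_exists N (u.1 - v.1)
  obtain ⟨b, hb⟩ := dZ_exists N (u.2 - v.2)
  refine ⟨a, b, ?_⟩
  unfold dT at h
  rw [mem_ball]
  simp only
  have h1 : |u.1 - v.1 - a * N| ≤ r := by omega
  have h2 : |u.2 - v.2 - b * N| ≤ r := by omega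
  rw [abs_le] at h1 h2
  constructor
  · linarith
  constructor
  · linarith
  constructor
  · linarith
  · linarith

/-- Far vertices: no translate is in the ball. -/
lemma notMem_of_lt {N : ℕ} (hN : 1 ≤ N) {u v : Vert} {r : ℕ} (h : r < dT N u v) (a b : ℤ) :
    (u.1 - a * N, u.2 - b * N) ∉ ball v r := fun h' => by
  have := dT_le_of hN a b h'
  omega

lemma notMem_of_lt' {N : ℕ} (hN : 1 ≤ N) {u v : Vert} {r : ℕ} (h : r < dT N u v) (a b : ℤ) :
    (u.1 + a * N, u.2 + b * N) ∉ ball v r := by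
  have := notMem_of_lt hN h (-a) (-b)
  simpa using this

/-- If a vertex is close then every translate in a ball of radius less than `N / 2` is close. -/
lemma mem_of_dT_le {N : ℕ} (hN : 1 ≤ N) {u v : Vert} {t R : ℕ} (h : dT N u v ≤ t)
    (hR : t + R < N) (a b : ℤ) (hm : (u.1 - a * N, u.2 - b * N) ∈ ball v R) :
    (u.1 - a * N, u.2 - b * N) ∈ ball v t := by
  obtain ⟨a', b', h'⟩ := exists_of_dT_le h
  rw [mem_ball] at h' hm ⊢
  simp only at h' hm ⊢
  have key : ∀ c c' : ℤ, ∀ x y : ℤ, y - t ≤ x - c' * N → x - c' * N ≤ y + t →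
      y - R ≤ x - c * N → x - c * N ≤ y + R → c = c' := by
    intro c c' x y h1 h2 h3 h4
    by_contra h0
    rcases lt_or_gt_of_ne h0 with h5 | h5
    · have h6 : (c + 1) * N ≤ c' * N := mul_le_mul_of_nonneg_right (by omega) (by omega)
      rw [add_mul, one_mul] at h6
      omega
    · have h6 : (c' + 1) * N ≤ c * N := mul_le_mul_of_nonneg_right (by omega) (by omega)
      rw [add_mul, one_mul] at h6
      omega
  have e1 := key a a' u.1 v.1 h'.1 h'.2.1 hm.1 hm.2.1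
  have e2 := key b b' u.2 v.2 h'.2.2.1 h'.2.2.2 hm.2.2.1 hm.2.2.2
  rw [e1, e2]
  exact h'

lemma mem_tEdges_iff {N : ℕ} {e : Edge} :
    e ∈ tEdges N ↔ (0 ≤ e.1 ∧ e.1 < N) ∧ (0 ≤ e.2.1 ∧ e.2.1 < N) := by
  simp only [tEdges, Finset.mem_product, Finset.mem_Ico, Finset.mem_univ, and_true]

lemma modE_mem {N : ℕ} (hN : 1 ≤ N) (e : Edge) : modE N e ∈ tEdges N := by
  have hN' : (0 : ℤ) < N := by exact_mod_cast hN
  rw [mem_tEdges_iff]
  exact ⟨⟨Int.emod_nonneg _ hN'.ne', Int.emod_lt_of_pos _ hN'⟩,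
    ⟨Int.emod_nonneg _ hN'.ne', Int.emod_lt_of_pos _ hN'⟩⟩

lemma modE_eq {N : ℕ} {e : Edge} (he : e ∈ tEdges N) : modE N e = e := by
  rw [mem_tEdges_iff] at he
  obtain ⟨x, y, t⟩ := e
  simp only at he
  simp only [modE]
  rw [Int.emod_eq_of_lt he.1.1 he.1.2, Int.emod_eq_of_lt he.2.1 he.2.2]

lemma modE_shift {N : ℕ} (e : Edge) :
    ∃ a b : ℤ, e = shiftE (a * N, b * N) (modE N e) := by
  refine ⟨e.1 / N, e.2.1 / N, ?_⟩
  obtain ⟨x, y, c⟩ := e
  simp only [modE, shiftE]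
  rw [Int.emod_add_ediv_mul, Int.emod_add_ediv_mul]

lemma src_modE {N : ℕ} (e : Edge) :
    ∃ a b : ℤ, ((src (modE N e)).1 - a * N, (src (modE N e)).2 - b * N) = src e := by
  obtain ⟨a, b, h⟩ := modE_shift (N := N) e
  refine ⟨-a, -b, ?_⟩
  conv_rhs => rw [h]
  simp only [src, shiftE]
  ext <;> (simp only; ring)

/-- The edges of the torus at distance between `t` and `R` from `c`. -/
noncomputable def SR (N : ℕ) (c : Vert) (t R : ℕ) : Finset Edge :=
  (tEdges N).filter fun g => t ≤ dT N (src g) c ∧ dT N (src g) c ≤ R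

lemma mem_SR {N : ℕ} {c : Vert} {t R : ℕ} {g : Edge} :
    g ∈ SR N c t R ↔ g ∈ tEdges N ∧ t ≤ dT N (src g) c ∧ dT N (src g) c ≤ R := by
  simp only [SR, Finset.mem_filter]

lemma modE_mem_SR {N : ℕ} (hN : 1 ≤ N) {c : Vert} {R : ℕ} {e : Edge} (he : src e ∈ ball c R) :
    modE N e ∈ SR N c 0 R := by
  rw [mem_SR]
  refine ⟨modE_mem hN e, Nat.zero_le _, ?_⟩
  obtain ⟨a, b, h⟩ := src_modE (N := N) e
  exact dT_le_of hN a b (by rw [h]; exact he)

lemma modE_mem_SR' {N : ℕ} (hN : 1 ≤ N) {c : Vert} {t R : ℕ} (ht : 1 ≤ t) (hR : t + R ≤ N)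
    {e : Edge} (he : src e ∈ ball c R) (he' : src e ∉ ball c (t - 1)) :
    modE N e ∈ SR N c t R := by
  rw [mem_SR]
  obtain ⟨a, b, h⟩ := src_modE (N := N) e
  refine ⟨modE_mem hN e, ?_, ?_⟩
  · by_contra hlt
    push Not at hlt
    apply he'
    have := mem_of_dT_le hN (u := src (modE N e)) (v := c) (t := t - 1) (R := R) (by omega)
      (by omega) a b (by rw [h]; exact he)
    rw [h] at this
    exact this
  · exact dT_le_of hN a b (by rw [h]; exact he)

lemma localOn_A4T' {N : ℕ} (hN : 1 ≤ N) (f : Edge) (r : ℕ) :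
    LocalOn (SR N (src f) 0 r) (A4T N f r) := by
  refine (localOn_A4T N f r).mono ?_
  intro g hg
  rw [Finset.mem_image] at hg
  obtain ⟨e, he, rfl⟩ := hg
  exact modE_mem_SR hN (mem_eRect.1 he)

/-- Two crossing clusters of an annulus of the torus. -/
def A2T (N : ℕ) (c : Vert) (t R : ℕ) : Set Config :=
  {ω | (fun g => per N ω (shiftE c g)) ∈ Pool.Agent.H29.Sep.A2 t R}

lemma A2_congr {t R : ℕ} {ω ω' : Config}
    (h : ∀ e, src e ∈ Pool.Agent.H29.Sep.dom t R → tgt e ∈ Pool.Agent.H29.Sep.dom t R →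
      ω e = ω' e) (hω : ω ∈ Pool.Agent.H29.Sep.A2 t R) : ω' ∈ Pool.Agent.H29.Sep.A2 t R := by
  obtain ⟨u, hu, u', hu', v, hv, v', hv', h1, h2, h3⟩ := hω
  refine ⟨u, hu, u', hu', v, hv, v', hv', h1.congr h, h2.congr h, fun h4 => h3 ?_⟩
  exact h4.congr fun e he he' => (h e he he').symm

lemma localOn_A2' (t R : ℕ) : LocalOn (eRect (-(R : ℤ)) R (-(R : ℤ)) R)
    (Pool.Agent.H29.Sep.A2 t R) := by
  intro ω ω' h hω
  refine A2_congr (fun e he _ => h e (mem_eRect.2 ?_)) hω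
  have := he.1
  simpa [ball] using this

lemma localOn_A2T {N : ℕ} (hN : 1 ≤ N) (c : Vert) {t R : ℕ} (ht : 1 ≤ t) (hR : t + R ≤ N) :
    LocalOn (SR N c t R) (A2T N c t R) := by
  intro ω ω' h hω
  refine A2_congr (fun e he _ => ?_) hω
  unfold per
  refine h _ (modE_mem_SR' hN ht hR (e := shiftE c e) ?_ ?_)
  · have := he.1
    simp only [mem_ball, src, shiftE, Prod.fst_zero, Prod.snd_zero] at this ⊢
    omega
  · intro h'
    apply he.2
    simp only [mem_ball, src, shiftE, Prod.fst_zero, Prod.snd_zero] at h' ⊢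
    omega

lemma Pr_A2T (q : I) {N : ℕ} (c : Vert) {t R : ℕ} (hR : 2 * R < N) :
    Pr q (A2T N c t R) = Pr q (Pool.Agent.H29.Sep.A2 t R) := by
  have hinj : Set.InjOn (fun g : Edge => modE N (shiftE c g)) (eRect (-(R : ℤ)) R (-(R : ℤ)) R) := by
    intro e he e' he' hee
    have h1 : shiftE c e ∈ eRect (c.1 - R) (c.1 + R) (c.2 - R) (c.2 + R) := by
      rw [Finset.mem_coe, mem_eRect] at he
      rw [mem_eRect]
      simp only [src, shiftE, rect, Set.mem_ofPred_eq] at he ⊢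
      omega
    have h2 : shiftE c e' ∈ eRect (c.1 - R) (c.1 + R) (c.2 - R) (c.2 + R) := by
      rw [Finset.mem_coe, mem_eRect] at he'
      rw [mem_eRect]
      simp only [src, shiftE, rect, Set.mem_ofPred_eq] at he' ⊢
      omega
    exact shiftE_injective c (modE_injOn (by omega) (by omega) h1 h2 hee)
  rw [← Pr_comp (localOn_A2' t R) hinj]
  rfl

end Pool.Agent.H90.AL
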