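import Pool.Agent.H90.AL.Arms

/-!
# Pivotal edges of the connection event on the torus
-/

open MeasureTheory ProbabilityTheory unitInterval

namespace Pool.Agent.H90.AL

open Pool.Agent.H89.Perc Pool.Agent.H61.NC Pool.Agent.H31.AL

variable {N : ℕ} {d : Bool}

/-- The periodic configuration with the middle edge closed. -/
def cfg (N : ℕ) (d : Bool) (ω : Config) : Config := per N (close (ctr N d) ω)

lemma isPer_cfg (N : ℕ) (d : Bool) (ω : Config) : IsPer N (cfg N d ω) := isPer_per N _

lemma ctr_mem' (hN : 1 ≤ N) (d : Bool) : ctr N d ∈ tEdges N := by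
  rw [mem_tEdges_iff]
  simp only [ctr, mid]
  omega

lemma cfg_apply (N : ℕ) (d : Bool) (ω : Config) (g : Edge) :
    cfg N d ω g = if modE N g = ctr N d then false else ω (modE N g) := by
  unfold cfg per close
  rw [Function.update_apply]
  rfl

lemma cfg_update (N : ℕ) (d : Bool) (ω : Config) (f g : Edge) (b : Bool) :
    cfg N d (Function.update ω f b) g =
      if modE N g = ctr N d then false else if modE N g = f then b else ω (modE N g) := by
  rw [cfg_apply, Function.update_apply]

/-- The edge `f` is pivotal. -/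
def Piv (N : ℕ) (d : Bool) (f : Edge) (ω : Config) : Prop :=
  Function.update ω f true ∈ DT N d ∧ Function.update ω f false ∉ DT N d

lemma Piv.ne {f : Edge} {ω : Config} (h : Piv N d f ω) : f ≠ ctr N d := by
  rintro rfl
  apply h.2
  have h1 := h.1
  unfold DT at h1 ⊢
  simp only [Set.mem_ofPred_eq, close, Function.update_idem] at h1 ⊢
  exact h1

lemma addEdge_cfg {f : Edge} (hf : f ∈ tEdges N) (ω : Config) :
    AddEdge N f (cfg N d (Function.update ω f false)) (cfg N d (Function.update ω f true)) := by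
  rintro v v' ⟨-, -, g, hg, hgo⟩
  by_cases hge : modE N g = f
  · right
    obtain ⟨a, b, hab⟩ := modE_shift (N := N) g
    rw [hge] at hab
    refine ⟨a, b, ?_⟩
    have h3 := joins_shift (a * N, b * N) (joins_src_tgt f)
    rw [← hab] at h3
    rcases hg with ⟨g1, g2⟩ | ⟨g1, g2⟩ <;> rcases h3 with ⟨g3, g4⟩ | ⟨g3, g4⟩
    · left
      exact ⟨g1.trans g3.symm, g2.trans g4.symm⟩
    · right
      exact ⟨g1.trans g4.symm, g2.trans g3.symm⟩
    · right
      exact ⟨g1.trans g4.symm, g2.trans g3.symm⟩
    · left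
      exact ⟨g1.trans g3.symm, g2.trans g4.symm⟩
  · left
    refine ⟨Set.mem_univ _, Set.mem_univ _, g, hg, ?_⟩
    rw [cfg_update, if_neg hge] at hgo ⊢
    exact hgo

lemma Piv.conn {f : Edge} {ω : Config} (h : Piv N d f ω) :
    (∃ a b : ℤ, Conn (cfg N d (Function.update ω f true)) Set.univ (src (ctr N d))
      ((tgt (ctr N d)).1 + a * N, (tgt (ctr N d)).2 + b * N)) ∧
    ∀ a b : ℤ, ¬ Conn (cfg N d (Function.update ω f false)) Set.univ (src (ctr N d))
      ((tgt (ctr N d)).1 + a * N, (tgt (ctr N d)).2 + b * N) :=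
  ⟨h.1, fun a b hc => h.2 ⟨a, b, hc⟩⟩

/-- Both endpoints of the middle edge are joined to translates of endpoints of `f`. -/
lemma Piv.touch {f : Edge} (hf : f ∈ tEdges N) {ω : Config} (h : Piv N d f ω) :
    (∃ a b : ℤ, Conn (cfg N d (Function.update ω f false)) Set.univ (src (ctr N d))
        ((src f).1 + a * N, (src f).2 + b * N) ∨
      Conn (cfg N d (Function.update ω f false)) Set.univ (src (ctr N d))
        ((tgt f).1 + a * N, (tgt f).2 + b * N)) ∧
    (∃ a b : ℤ, Conn (cfg N d (Function.update ω f false)) Set.univ (tgt (ctr N d))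
        ((src f).1 + a * N, (src f).2 + b * N) ∨
      Conn (cfg N d (Function.update ω f false)) Set.univ (tgt (ctr N d))
        ((tgt f).1 + a * N, (tgt f).2 + b * N)) := by
  obtain ⟨⟨a, b, h1⟩, h0⟩ := h.conn
  refine ⟨touch_of_added (addEdge_cfg hf ω) h1 (h0 a b), ?_⟩
  obtain ⟨a', b', h2⟩ := touch_of_added (addEdge_cfg hf ω) h1.symm (fun hc => h0 a b hc.symm)
  refine ⟨a' - a, b' - b, ?_⟩
  have hp := isPer_cfg N d (Function.update ω f false)
  have e1 : ((((tgt (ctr N d)).1 + a * N) + -a * N, ((tgt (ctr N d)).2 + b * N) + -b * N) : Vert) =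
      tgt (ctr N d) := by
    ext <;> (simp only; ring)
  have e2 : ∀ w : Vert, (((w.1 + a' * N) + -a * N, (w.2 + b' * N) + -b * N) : Vert) =
      (w.1 + (a' - a) * N, w.2 + (b' - b) * N) := by
    intro w
    ext <;> (simp only; ring)
  rcases h2 with h2 | h2
  · left
    have h3 := conn_per hp (-a) (-b) h2
    simp only at h3
    rw [e1, e2] at h3
    exact h3
  · right
    have h3 := conn_per hp (-a) (-b) h2
    simp only at h3
    rw [e1, e2] at h3
    exact h3

/-- Vertices at distance more than `r + 1` from the first endpoint: no translate of an endpoint of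
`f` is in the ball. -/
lemma far_ends (hN : 1 ≤ N) {f : Edge} {c : Vert} {r : ℕ} (h : r + 1 < dT N (src f) c) (a b : ℤ) :
    ((src f).1 - a * N, (src f).2 - b * N) ∉ ball c r ∧
    ((tgt f).1 - a * N, (tgt f).2 - b * N) ∉ ball c r := by
  have h1 := notMem_of_lt hN h a b
  have h2 := abs_le.1 (tgt_near f).1
  have h3 := abs_le.1 (tgt_near f).2
  rw [mem_ball] at h1
  simp only at h1
  push_cast at h1
  constructor
  · intro h4
    rw [mem_ball] at h4
    simp only at h4
    apply h1
    omega
  · intro h4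
    rw [mem_ball] at h4
    simp only at h4
    apply h1
    omega

/-- In a ball which contains no translate of `e`, except possibly `e` itself. -/
lemma modE_ball (hN : 1 ≤ N) {f g : Edge} {r : ℕ} (hr : 2 * r < N)
    (hg : src g ∈ ball (src f) r) (h : modE N g = f) : g = f := by
  obtain ⟨a, b, hab⟩ := modE_shift (N := N) g
  rw [h] at hab
  rw [hab] at hg ⊢
  obtain ⟨x, y, c⟩ := f
  simp only [mem_ball, src, shiftE] at hg ⊢
  have ha : a = 0 := by
    by_contra h0
    rcases lt_or_gt_of_ne h0 with h0 | h0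
    · have : a * N ≤ -1 * N := mul_le_mul_of_nonneg_right (by omega) (by omega)
      omega
    · have : 1 * N ≤ a * N := mul_le_mul_of_nonneg_right (by omega) (by omega)
      omega
  have hb : b = 0 := by
    by_contra h0
    rcases lt_or_gt_of_ne h0 with h0 | h0
    · have : b * N ≤ -1 * N := mul_le_mul_of_nonneg_right (by omega) (by omega)
      omega
    · have : 1 * N ≤ b * N := mul_le_mul_of_nonneg_right (by omega) (by omega)
      omega
  rw [ha, hb]
  simp

/-- In a ball far from `f` there is no translate of `f`. -/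
lemma modE_far (hN : 1 ≤ N) {f g : Edge} {c : Vert} {r : ℕ} (hr : r < dT N (src f) c)
    (hg : src g ∈ ball c r) : modE N g ≠ f := by
  intro h
  have h1 := modE_mem_SR (N := N) hN hg
  rw [mem_SR, h] at h1
  omega

/-- Four arms of the pivotal edge. -/
theorem Piv.a4_self {f : Edge} (hf : f ∈ tEdges N) {ω : Config} (h : Piv N d f ω) {r : ℕ}
    (hr : 1 ≤ r) (hN : 2 * r + 2 ≤ N) (hd : r + 1 < dT N (src (ctr N d)) (src f)) :
    ω ∈ A4T N f r := by
  have hN1 : 1 ≤ N := by omega
  obtain ⟨⟨a, b, h1⟩, h0⟩ := h.conn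
  have hp := isPer_cfg N d (Function.update ω f false)
  have hball : ∀ g : Edge, src g ∈ ball (src f) r → tgt g ∈ ball (src f) r →
      cfg N d (Function.update ω f false) g = close f (per N ω) g := by
    intro g hg _
    rw [cfg_update]
    have g1 : modE N g ≠ ctr N d := modE_far hN1 (by omega) hg
    rw [if_neg g1]
    unfold close
    by_cases g2 : modE N g = f
    · rw [if_pos g2, modE_ball hN1 (by omega) hg g2, Function.update_self]
    · rw [if_neg g2, Function.update_of_ne]
      · rfl
      · rintro rfl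
        exact g2 (modE_eq hf)
  have hfar := far_ends hN1 hd
  obtain ⟨k1, k2, k3⟩ := arms_of_added hr hN hp (addEdge_cfg hf ω)
    (X := src (ctr N d)) (Y := ((tgt (ctr N d)).1 + a * N, (tgt (ctr N d)).2 + b * N))
    (fun a' b' => (hfar a' b').1) (fun a' b' => by
      have := (hfar (a' - a) (b' - b)).2
      have e : (((tgt (ctr N d)).1 + a * N - a' * N, (tgt (ctr N d)).2 + b * N - b' * N) : Vert) =
          ((tgt (ctr N d)).1 - (a' - a) * N, (tgt (ctr N d)).2 - (b' - b) * N) := by
        ext <;> (simp only; ring)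
      simp only
      rw [e]
      exact this) h1 (h0 a b)
  obtain ⟨u, hu, hc⟩ := k1
  obtain ⟨u', hu', hc'⟩ := k2
  refine ⟨⟨u, hu, hc.congr hball⟩, ⟨u', hu', hc'.congr hball⟩, fun hcon => k3 ?_⟩
  exact (hcon.congr fun g g1 g2 => (hball g g1 g2).symm).mono_set (Set.subset_univ _)

/-- Four arms of the middle edge. -/
theorem Piv.a4_ctr {f : Edge} (hf : f ∈ tEdges N) {ω : Config} (h : Piv N d f ω) {r : ℕ}
    (hr : 1 ≤ r) (hN : 2 * r + 2 ≤ N) (hd : r + 1 < dT N (src f) (src (ctr N d))) :
    ω ∈ A4T N (ctr N d) r := by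
  have hN1 : 1 ≤ N := by omega
  obtain ⟨-, h0⟩ := h.conn
  obtain ⟨⟨a, b, t1⟩, ⟨a', b', t2⟩⟩ := h.touch hf
  have hball : ∀ g : Edge, src g ∈ ball (src (ctr N d)) r → tgt g ∈ ball (src (ctr N d)) r →
      cfg N d (Function.update ω f false) g = close (ctr N d) (per N ω) g := by
    intro g hg _
    rw [cfg_update]
    have g1 : modE N g ≠ f := modE_far hN1 (by omega) hg
    rw [if_neg g1]
    unfold close
    by_cases g2 : modE N g = ctr N d
    · rw [if_pos g2, modE_ball hN1 (by omega) hg g2, Function.update_self]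
    · rw [if_neg g2, Function.update_of_ne]
      · rfl
      · rintro rfl
        exact g2 (modE_eq (ctr_mem' hN1 d))
  have hfar := far_ends hN1 hd
  have htb : tgt (ctr N d) ∈ ball (src (ctr N d)) r := by
    have h3 := abs_le.1 (tgt_near (ctr N d)).1
    have h4 := abs_le.1 (tgt_near (ctr N d)).2
    rw [mem_ball]
    omega
  have harm : ∀ p : Vert, p ∈ ball (src (ctr N d)) r → ∀ a b : ℤ,
      (Conn (cfg N d (Function.update ω f false)) Set.univ p
        ((src f).1 + a * N, (src f).2 + b * N) ∨
      Conn (cfg N d (Function.update ω f false)) Set.univ p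
        ((tgt f).1 + a * N, (tgt f).2 + b * N)) →
      ∃ u ∈ sphere (src (ctr N d)) r,
        Conn (close (ctr N d) (per N ω)) (ball (src (ctr N d)) r) p u := by
    intro p hp a b t
    have hf' := hfar (-a) (-b)
    rw [neg_mul, neg_mul, sub_neg_eq_add, sub_neg_eq_add, sub_neg_eq_add, sub_neg_eq_add] at hf'
    rcases t with t | t
    · obtain ⟨u, hu, hc⟩ := t.to_sphere hp (Or.inl hf'.1)
      exact ⟨u, hu, (hc.mono_set Set.inter_subset_right).congr hball⟩
    · obtain ⟨u, hu, hc⟩ := t.to_sphere hp (Or.inl hf'.2)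
      exact ⟨u, hu, (hc.mono_set Set.inter_subset_right).congr hball⟩
  refine ⟨harm _ self_mem_ball a b t1, harm _ htb a' b' t2, fun hcon => h0 0 0 ?_⟩
  simp only [zero_mul, add_zero]
  exact (hcon.congr fun g g1 g2 => (hball g g1 g2).symm).mono_set (Set.subset_univ _)

/-- Two crossing clusters of an annulus which separates `f` from the middle edge. -/
theorem Piv.a2 {f : Edge} (hf : f ∈ tEdges N) {ω : Config} (h : Piv N d f ω) {c : Vert} {t R : ℕ}
    (ht : 1 ≤ t) (htR : t ≤ R) (hR : 2 * R < N)
    (hd : (dT N (src f) c + 1 ≤ t ∧ R + 1 < dT N (src (ctr N d)) c) ∨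
      (dT N (src (ctr N d)) c + 1 ≤ t ∧ R + 1 < dT N (src f) c)) : ω ∈ A2T N c t R := by
  have hN1 : 1 ≤ N := by omega
  obtain ⟨-, h0⟩ := h.conn
  obtain ⟨⟨a, b, t1⟩, ⟨a', b', t2⟩⟩ := h.touch hf
  have hp := isPer_cfg N d (Function.update ω f false)
  -- the first endpoint of the near edge has a translate in `ball c (t - 1)`
  have hnear : ∀ g : Edge, dT N (src g) c + 1 ≤ t → ∃ a b : ℤ,
      ((src g).1 - a * N, (src g).2 - b * N) ∈ ball c t ∧
      ((tgt g).1 - a * N, (tgt g).2 - b * N) ∈ ball c t := by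
    intro g hg
    obtain ⟨a, b, hab⟩ := exists_of_dT_le (N := N) (u := src g) (v := c) (r := t - 1) (by omega)
    refine ⟨a, b, ?_, ?_⟩
    · rw [mem_ball] at hab ⊢
      simp only at hab ⊢
      omega
    · have h2 := abs_le.1 (tgt_near g).1
      have h3 := abs_le.1 (tgt_near g).2
      rw [mem_ball] at hab ⊢
      simp only at hab ⊢
      omega
  -- the configuration in the annulus
  have hcf : ∀ g : Edge, src g ∈ Pool.Agent.H29.Sep.dom t R → tgt g ∈ Pool.Agent.H29.Sep.dom t R →
      cfg N d (Function.update ω f false) (shiftE c g) = per N ω (shiftE c g) := by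
    intro g hg _
    have g1 : src (shiftE c g) ∈ ball c R := by
      have := hg.1
      simp only [mem_ball, src, shiftE, Prod.fst_zero, Prod.snd_zero] at this ⊢
      omega
    have g2 : src (shiftE c g) ∉ ball c (t - 1) := by
      intro h'
      apply hg.2
      simp only [mem_ball, src, shiftE, Prod.fst_zero, Prod.snd_zero] at h' ⊢
      omega
    have g3 := modE_mem_SR' hN1 ht (by omega) g1 g2
    rw [mem_SR] at g3
    rw [cfg_update]
    rw [if_neg, if_neg]
    · rfl
    · intro h'
      rw [h'] at g3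
      rcases hd with hd | hd <;> omega
    · intro h'
      rw [h'] at g3
      rcases hd with hd | hd <;> omega
  have main : (fun g => cfg N d (Function.update ω f false) (shiftE c g)) ∈
      Pool.Agent.H29.Sep.A2 t R := by
    have epos : ∀ (a b : ℤ) (w : Vert) (x y : ℤ), ((w.1 + x * N - a * N, w.2 + y * N - b * N) : Vert) =
        (w.1 - (a - x) * N, w.2 - (b - y) * N) := by
      intro a b w x y
      ext <;> (simp only; ring)
    rcases hd with ⟨hd1, hd2⟩ | ⟨hd1, hd2⟩
    · -- `f` inside
      obtain ⟨k, l, hk1, hk2⟩ := hnear f hd1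
      have hfar := far_ends hN1 hd2
      have ein : ∀ (x y : ℤ) (w : Vert), (w.1 - k * N, w.2 - l * N) ∈ ball c t →
          ((w.1 + x * N - (k + x) * N, w.2 + y * N - (l + y) * N) : Vert) ∈ ball c t := by
        intro x y w hw
        have e : ((w.1 + x * N - (k + x) * N, w.2 + y * N - (l + y) * N) : Vert) =
            (w.1 - k * N, w.2 - l * N) := by
          ext <;> (simp only; ring)
        rw [e]
        exact hw
      have c1 : ∃ w : Vert, (w.1 - (k + a) * N, w.2 - (l + b) * N) ∈ ball c t ∧
          Conn (cfg N d (Function.update ω f false)) Set.univ (src (ctr N d)) w := by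
        rcases t1 with t1 | t1
        · exact ⟨_, ein a b _ hk1, t1⟩
        · exact ⟨_, ein a b _ hk2, t1⟩
      have c2 : ∃ w : Vert, (w.1 - (k + a') * N, w.2 - (l + b') * N) ∈ ball c t ∧
          Conn (cfg N d (Function.update ω f false)) Set.univ (tgt (ctr N d)) w := by
        rcases t2 with t2 | t2
        · exact ⟨_, ein a' b' _ hk1, t2⟩
        · exact ⟨_, ein a' b' _ hk2, t2⟩
      obtain ⟨w1, hw1, hc1⟩ := c1
      obtain ⟨w2, hw2, hc2⟩ := c2
      exact A2_of_cross hp ht htR h0 hw1 (hfar (k + a) (l + b)).1 hc1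
        (Conn.refl (Set.mem_univ _)) hw2 (hfar (k + a') (l + b')).2 hc2
        (Conn.refl (Set.mem_univ _))
    · -- the middle edge inside
      obtain ⟨k, l, hk1, hk2⟩ := hnear (ctr N d) hd1
      have hfar := far_ends hN1 hd2
      have c1 : ∃ w : Vert, (w.1 - k * N, w.2 - l * N) ∉ ball c R ∧
          Conn (cfg N d (Function.update ω f false)) Set.univ (src (ctr N d)) w := by
        rcases t1 with t1 | t1
        · refine ⟨_, ?_, t1⟩
          simp only
          rw [epos]
          exact (hfar (k - a) (l - b)).1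
        · refine ⟨_, ?_, t1⟩
          simp only
          rw [epos]
          exact (hfar (k - a) (l - b)).2
      have c2 : ∃ w : Vert, (w.1 - k * N, w.2 - l * N) ∉ ball c R ∧
          Conn (cfg N d (Function.update ω f false)) Set.univ (tgt (ctr N d)) w := by
        rcases t2 with t2 | t2
        · refine ⟨_, ?_, t2⟩
          simp only
          rw [epos]
          exact (hfar (k - a') (l - b')).1
        · refine ⟨_, ?_, t2⟩
          simp only
          rw [epos]
          exact (hfar (k - a') (l - b')).2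
      obtain ⟨w1, hw1, hc1⟩ := c1
      obtain ⟨w2, hw2, hc2⟩ := c2
      exact A2_of_cross hp ht htR h0 hk1 hw1 (Conn.refl (Set.mem_univ _)) hc1 hk2 hw2
        (Conn.refl (Set.mem_univ _)) hc2
  exact A2_congr hcf main

end Pool.Agent.H90.AL
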